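import Mathlib

/-! The harmonic mean projection inequality, in coordinates (definitions). -/

set_option autoImplicit false

namespace Pool.H77.PJC

open MeasureTheory
open scoped ENNReal

/-- The matrix `g` is orthogonal (its columns are orthonormal). -/
def IsOrtho {n : ℕ} (g : Fin n → Fin n → ℝ) : Prop :=
  ∀ a b, ∑ l, g l a * g l b = if a = b then 1 else 0

/-- `μ` is the Haar probability measure of the orthogonal group `O(n)`, as a measure on the
`n × n` matrices. -/
def IsHaar {n : ℕ} (μ : Measure (Fin n → Fin n → ℝ)) : Prop :=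
  μ Set.univ = 1 ∧ μ {g | ¬ IsOrtho g} = 0 ∧
    ∀ h, IsOrtho h → μ.map (fun g a b => ∑ l, h a l * g l b) = μ

/-- For orthogonal `g`: the `i`-dimensional Lebesgue measure of the orthogonal projection of `E`
onto the span `S` of the first `i` columns of `g` (in the orthonormal basis of `S` given by these
columns). -/
noncomputable def shadow {i m : ℕ} (g : Fin (i + m) → Fin (i + m) → ℝ)
    (E : Set (Fin (i + m) → ℝ)) : ℝ≥0∞ :=
  volume ((fun (x : Fin (i + m) → ℝ) (j : Fin i) => ∑ l, g l (Fin.castAdd m j) * x l) '' E)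

/-- The volume of the open unit ball of `ℝᵏ`. -/
noncomputable def kappa (k : ℕ) : ℝ≥0∞ := volume {x : Fin k → ℝ | ∑ j, x j ^ 2 < 1}

/-- The inequality with the constant `c`, for all Borel sets `E` of `ℝⁿ`, `n = i + m`. -/
def Holds {i m : ℕ} (μ : Measure (Fin (i + m) → Fin (i + m) → ℝ)) (c : ℝ) : Prop :=
  ∀ E : Set (Fin (i + m) → ℝ), MeasurableSet E →
    kappa (i + m) ^ (m / (i + m) : ℝ) * volume E ^ (i / (i + m) : ℝ) ≤
      ENNReal.ofReal c * kappa (i + m) / kappa i * (∫⁻ g, (shadow g E)⁻¹ ∂μ)⁻¹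

end Pool.H77.PJC
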