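import Pool.Agent.H77.MV.ProjConstProof
import Pool.Agent.H77.PJC.Defs

set_option autoImplicit false

namespace Pool.H77.PJC

open MeasureTheory Set
open scoped ENNReal
open Pool.Agent.H68.Cap

/-- The inclusion of `O(n)` in the matrices. -/
def val {n : ℕ} (g : OG n) : Fin n → Fin n → ℝ := g.1

theorem isOrtho_iff {n : ℕ} (g : Matrix (Fin n) (Fin n) ℝ) :
    IsOrtho (fun a b => g a b) ↔ g ∈ Matrix.orthogonalGroup (Fin n) ℝ := by
  rw [Matrix.mem_orthogonalGroup_iff']
  constructor
  · intro h
    ext a b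
    rw [Matrix.mul_apply, Matrix.one_apply]
    exact h a b
  · intro h a b
    have h1 := congrFun (congrFun h a) b
    rw [Matrix.mul_apply, Matrix.one_apply] at h1
    exact h1

theorem continuous_val {n : ℕ} : Continuous (val : OG n → Fin n → Fin n → ℝ) :=
  continuous_subtype_val

theorem injective_val {n : ℕ} : Function.Injective (val : OG n → Fin n → Fin n → ℝ) :=
  Subtype.val_injective

theorem emb_val {n : ℕ} : MeasurableEmbedding (val : OG n → Fin n → Fin n → ℝ) :=
  (continuous_val.isClosedEmbedding injective_val).measurableEmbedding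

theorem range_val {n : ℕ} : range (val : OG n → Fin n → Fin n → ℝ) = {g | IsOrtho g} := by
  ext g
  constructor
  · rintro ⟨h, rfl⟩
    exact (isOrtho_iff _).mpr h.2
  · intro hg
    exact ⟨⟨g, (isOrtho_iff g).mp hg⟩, rfl⟩

/-- Left multiplication. -/
def lmul {n : ℕ} (h g : Fin n → Fin n → ℝ) : Fin n → Fin n → ℝ :=
  fun a b => ∑ l, h a l * g l b

theorem measurable_lmul {n : ℕ} (h : Fin n → Fin n → ℝ) : Measurable (lmul h) := by
  apply Continuous.measurable
  unfold lmul
  fun_prop

theorem lmul_val {n : ℕ} (h g : OG n) : lmul (val h) (val g) = val (h * g) := by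
  funext a b
  exact (Matrix.mul_apply (M := h.1) (N := g.1)).symm

theorem measurable_mulO {n : ℕ} (h : OG n) : Measurable (fun g : OG n => h * g) :=
  (continuous_const_mul h).measurable

theorem map_comm {n : ℕ} (h : OG n) (ν : Measure (OG n)) :
    (ν.map (fun g : OG n => h * g)).map val = (ν.map val).map (lmul (val h)) := by
  rw [Measure.map_map emb_val.measurable (measurable_mulO h),
    Measure.map_map (measurable_lmul _) emb_val.measurable]
  congr 1

theorem isHaar_muO (n : ℕ) : IsHaar ((muO n).map val) := by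
  refine ⟨?_, ?_, ?_⟩
  · rw [Measure.map_apply emb_val.measurable MeasurableSet.univ]
    exact measure_univ
  · rw [emb_val.map_apply]
    have : val ⁻¹' {g : Fin n → Fin n → ℝ | ¬ IsOrtho g} = ∅ := by
      ext g
      simp only [mem_preimage, mem_ofPred_eq, mem_empty_iff_false, iff_false, not_not]
      exact (isOrtho_iff _).mpr g.2
    rw [this, measure_empty]
  · intro h hh
    have h1 := map_comm (⟨h, (isOrtho_iff h).mp hh⟩ : OG n) (muO n)
    rw [map_mul_left_eq_self] at h1
    exact h1.symm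

theorem eq_muO {n : ℕ} {μ : Measure (Fin n → Fin n → ℝ)} (hμ : IsHaar μ) :
    μ = (muO n).map val := by
  obtain ⟨h1, h2, h3⟩ := hμ
  set ν : Measure (OG n) := μ.comap val with hν
  have hm : ν.map val = μ := by
    rw [hν, emb_val.map_comap]
    apply Measure.restrict_eq_self_of_ae_mem
    rw [range_val]
    exact h2
  have hp : IsProbabilityMeasure ν := by
    constructor
    have h4 : (ν.map val) univ = ν univ := by
      rw [Measure.map_apply emb_val.measurable MeasurableSet.univ]; rfl
    rw [← h4, hm, h1]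
  have hl : ν.IsMulLeftInvariant := by
    constructor
    intro h
    have h5 := map_comm h ν
    rw [hm] at h5
    have h6 : μ.map (lmul (val h)) = μ := h3 (val h) ((isOrtho_iff _).mpr h.2)
    rw [h6] at h5
    have h7 : (Measure.map val (Measure.map (fun g : OG n => h * g) ν)).comap val =
        μ.comap val := by rw [h5]
    rw [emb_val.comap_map] at h7
    exact h7
  have hH : ν.IsHaarMeasure :=
    Measure.isHaarMeasure_of_isCompact_nonempty_interior ν univ isCompact_univ
      (by rw [interior_univ]; exact univ_nonempty) (by rw [measure_univ]; exact one_ne_zero)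
      (by rw [measure_univ]; exact ENNReal.one_ne_top)
  have hE : ν = muO n := Measure.isHaarMeasure_eq_of_isProbabilityMeasure ν (muO n)
  rw [← hE, hm]

/-! ### Euclidean coordinates -/

theorem vol_of {k : ℕ} (S : Set (Fin k → ℝ)) :
    volume ((fun x : EE k => WithLp.ofLp x) ⁻¹' S) = volume S :=
  (PiLp.volume_preserving_ofLp (Fin k)).measure_preimage_emb
    (MeasurableEquiv.toLp 2 (Fin k → ℝ)).symm.measurableEmbedding S

theorem kappa_eq' (k : ℕ) : kappa k = Pool.Agent.Results.MP_6f559f_gt.ProjConst.kappa k := by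
  unfold kappa Pool.Agent.Results.MP_6f559f_gt.ProjConst.kappa
  rw [← vol_of]
  congr 1
  ext x
  rw [mem_ball_zero_iff, mem_preimage, mem_ofPred_eq, EuclideanSpace.norm_eq, Real.sqrt_lt' one_pos,
    one_pow]
  simp only [Real.norm_eq_abs, sq_abs]

theorem shadow_eq {i m : ℕ} (h : i ≤ i + m) (g : OG (i + m)) (E : Set (Fin (i + m) → ℝ)) :
    shadow (val g) E = volume (QQ h g '' ((fun x : EE (i + m) => WithLp.ofLp x) ⁻¹' E)) := by
  unfold shadow
  rw [← vol_of]
  congr 1
  have key : ∀ (x : EE (i + m)) (j : Fin i), (QQ h g x) j =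
      ∑ l, val g l (Fin.castAdd m j) * x l := by
    intro x j
    unfold QQ
    change (actE (i + m) g⁻¹ x) (Fin.castLE h j) = _
    rw [actE_apply]
    change ∑ l, (g⁻¹).1 (Fin.castLE h j) l * x l = _
    rfl
  ext y
  constructor
  · rintro ⟨x, hx, hxy⟩
    refine ⟨WithLp.toLp 2 x, hx, ?_⟩
    ext j
    rw [key]
    exact congrFun hxy j
  · rintro ⟨x, hx, rfl⟩
    refine ⟨WithLp.ofLp x, hx, ?_⟩
    funext j
    exact (key x j).symm

theorem holds_iff {i m : ℕ} (c : ℝ) : Holds (i := i) (m := m) ((muO (i + m)).map val) c ↔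
    Pool.Agent.Results.MP_6f559f_gt.ProjConst.Holds (i + m) i c := by
  have h : i ≤ i + m := Nat.le_add_right i m
  have hexp1 : ((((i + m : ℕ) : ℝ) - i) / ((i + m : ℕ) : ℝ)) = (m / (i + m) : ℝ) := by
    push_cast; ring
  have hexp2 : ((i : ℝ) / ((i + m : ℕ) : ℝ)) = (i / (i + m) : ℝ) := by push_cast; rfl
  have hH : ∀ E : Set (Fin (i + m) → ℝ), (∫⁻ g, (shadow g E)⁻¹ ∂((muO (i + m)).map val))⁻¹ =
      Pool.Agent.Results.MP_6f559f_gt.ProjConst.harmonicMean (i + m) i
        ((fun x : EE (i + m) => WithLp.ofLp x) ⁻¹' E) := by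
    intro E
    rw [emb_val.lintegral_map, Pool.Agent.Results.MP_6f559f_gt.ProjConst.harmonicMean_eq h]
    simp only [shadow_eq h]
  constructor
  · intro H E hE
    have e1 : (fun x : EE (i + m) => WithLp.ofLp x) ⁻¹' ((fun x => WithLp.toLp 2 x) ⁻¹' E) = E := rfl
    have h1 := H ((fun x => WithLp.toLp 2 x) ⁻¹' E)
      ((MeasurableEquiv.toLp 2 (Fin (i + m) → ℝ)).measurable hE)
    rw [hH, ← vol_of, e1, kappa_eq', kappa_eq'] at h1
    rw [hexp1, hexp2]
    exact h1
  · intro H E hE
    have h1 := H ((fun x : EE (i + m) => WithLp.ofLp x) ⁻¹' E)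
      ((MeasurableEquiv.toLp 2 (Fin (i + m) → ℝ)).symm.measurable hE)
    rw [hH, ← vol_of E, kappa_eq', kappa_eq']
    rw [hexp1, hexp2] at h1
    exact h1

theorem main (i m : ℕ) (hi : 1 ≤ i) (hm : 1 ≤ m) :
    (∃ μ : Measure (Fin (i + m) → Fin (i + m) → ℝ), IsHaar μ) ∧
    ∀ μ : Measure (Fin (i + m) → Fin (i + m) → ℝ), IsHaar μ →
      IsLeast {c : ℝ | 0 ≤ c ∧ Holds (i := i) (m := m) μ c} 1 := by
  refine ⟨⟨_, isHaar_muO _⟩, fun μ hμ => ?_⟩
  rw [eq_muO hμ]
  simp only [holds_iff]
  exact Pool.Agent.Results.MP_6f559f_gt.ProjConst.result_proof (i + m) i hi (by omega)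

end Pool.H77.PJC
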